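import Pool.Agent.Run7.h245.MO.Iface

/-!
# Project MO (helper245), piece SHL (helper688)
-/

set_option autoImplicit false

open NumberField Filter Topology Module
open scoped Pointwise

namespace Pool.Agent.Run7.h688.MO

open Pool.Agent.Run7.h245.MO
open NumberField.canonicalEmbedding (latticeBasis latticeBasis_apply)

variable (F : Type) [Field F] [NumberField F]

/-- index of the integral basis -/
abbrev Ix := Module.Free.ChooseBasisIndex ℤ (𝓞 F)

/-- real coordinates to the values at the embeddings -/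
noncomputable def Ph : (Ix F → ℝ) →ₗ[ℝ] ((F →+* ℂ) → ℂ) where
  toFun x := ∑ i, (x i : ℂ) • latticeBasis F i
  map_add' x y := by
    simp only [Pi.add_apply, Complex.ofReal_add, add_smul, Finset.sum_add_distrib]
  map_smul' c x := by
    simp only [Pi.smul_apply, smul_eq_mul, Complex.ofReal_mul, mul_smul, Finset.smul_sum,
      RingHom.id_apply]
    rfl

lemma Ph_inj : LinearMap.ker (Ph F) = ⊥ := by
  rw [LinearMap.ker_eq_bot']
  intro x hx
  have h := Fintype.linearIndependent_iff.1 (latticeBasis F).linearIndependent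
    (fun i => (x i : ℂ)) hx
  funext i
  exact_mod_cast h i

/-- the coordinates of an integer -/
noncomputable def co (a : 𝓞 F) : Ix F → ℝ := fun i => ((RingOfIntegers.basis F).repr a i : ℝ)

lemma co_inj : Function.Injective (co F) := by
  intro a b h
  apply (RingOfIntegers.basis F).repr.injective
  ext i
  have := congrFun h i
  unfold co at this
  exact_mod_cast this

lemma Ph_co (a : 𝓞 F) (σ : F →+* ℂ) : Ph F (co F a) σ = σ (a : F) := by
  have h1 : a = ∑ i, (RingOfIntegers.basis F).repr a i • RingOfIntegers.basis F i :=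
    ((RingOfIntegers.basis F).sum_repr a).symm
  have h2 : (a : F) = ∑ i, ((RingOfIntegers.basis F).repr a i : F) * integralBasis F i := by
    have e : (a : F) = algebraMap (𝓞 F) F a := rfl
    rw [e]
    conv_lhs => rw [h1]
    rw [map_sum]
    apply Finset.sum_congr rfl
    intro i _
    rw [integralBasis_apply, zsmul_eq_mul, map_mul, map_intCast]
  rw [h2, map_sum]
  show (∑ i, ((co F a i : ℝ) : ℂ) • latticeBasis F i) σ = _
  rw [Finset.sum_apply]
  apply Finset.sum_congr rfl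
  intro i _
  rw [Pi.smul_apply, latticeBasis_apply, NumberField.canonicalEmbedding.apply_at, map_mul, map_intCast, smul_eq_mul]
  unfold co
  push_cast
  rfl

/-- the integers of size at most `T` -/
def Sz (T : ℝ) : Set (𝓞 F) := {a | ∀ σ : F →+* ℂ, ‖σ (a : F)‖ ≤ T}

lemma mem_Sz {T : ℝ} (hT : 0 ≤ T) (a : 𝓞 F) : a ∈ Sz F T ↔ ‖Ph F (co F a)‖ ≤ T := by
  rw [pi_norm_le_iff_of_nonneg hT]
  simp only [Ph_co]
  rfl

/-- the convex body -/
def Kb : Set (Ix F → ℝ) := {x | ‖Ph F x‖ ≤ 1}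

lemma Kb_cvx : Convex ℝ (Kb F) := by
  have h := (convex_closedBall (0 : (F →+* ℂ) → ℂ) 1).linear_preimage (Ph F)
  have e : Kb F = ⇑(Ph F) ⁻¹' Metric.closedBall 0 1 := by
    ext x
    rw [Set.mem_preimage, mem_closedBall_zero_iff]
    rfl
  rw [e]
  exact h

lemma Kb_bdd : Bornology.IsBounded (Kb F) := by
  obtain ⟨C, _, hC⟩ := (Ph F).exists_antilipschitzWith (Ph_inj F)
  refine (Metric.isBounded_closedBall (x := (0 : Ix F → ℝ)) (r := C)).subset ?_
  intro x hx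
  rw [mem_closedBall_zero_iff]
  have h := hC.le_mul_dist x 0
  rw [map_zero, dist_zero_right, dist_zero_right] at h
  have h2 : ‖Ph F x‖ ≤ 1 := hx
  calc ‖x‖ ≤ C * ‖Ph F x‖ := h
    _ ≤ C * 1 := mul_le_mul_of_nonneg_left h2 C.2
    _ = C := mul_one _

lemma Ph_cont : Continuous (Ph F) := (Ph F).continuous_of_finiteDimensional

lemma Kb_meas : MeasurableSet (Kb F) := by
  apply IsClosed.measurableSet
  exact isClosed_le ((Ph_cont F).norm) continuous_const

lemma Kb_pos : 0 < MeasureTheory.volume.real (Kb F) := by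
  rw [MeasureTheory.measureReal_def]
  apply ENNReal.toReal_pos
  · apply ne_of_gt
    have h1 : IsOpen {x : Ix F → ℝ | ‖Ph F x‖ < 1} := isOpen_lt ((Ph_cont F).norm) continuous_const
    have h2 : ({x : Ix F → ℝ | ‖Ph F x‖ < 1}).Nonempty := ⟨0, by
      show ‖Ph F 0‖ < 1
      rw [map_zero, norm_zero]
      exact one_pos⟩
    refine lt_of_lt_of_le (h1.measure_pos MeasureTheory.volume h2) ?_
    apply MeasureTheory.measure_mono
    intro x hx
    exact le_of_lt (show ‖Ph F x‖ < 1 from hx)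
  · exact (Kb_bdd F).measure_lt_top.ne

lemma Kb_mono : ∀ ⦃x y : ℝ⦄, 0 < x → x ≤ y → x • Kb F ⊆ y • Kb F := by
  intro x y hx hxy z hz
  have hy : 0 < y := lt_of_lt_of_le hx hxy
  rw [Set.mem_smul_set_iff_inv_smul_mem₀ hx.ne'] at hz
  rw [Set.mem_smul_set_iff_inv_smul_mem₀ hy.ne']
  have h1 : ‖Ph F (x⁻¹ • z)‖ ≤ 1 := hz
  show ‖Ph F (y⁻¹ • z)‖ ≤ 1
  rw [map_smul, norm_smul, Real.norm_of_nonneg (by positivity)] at h1 ⊢
  calc y⁻¹ * ‖Ph F z‖ ≤ x⁻¹ * ‖Ph F z‖ :=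
        mul_le_mul_of_nonneg_right (inv_anti₀ hx hxy) (norm_nonneg _)
    _ ≤ 1 := h1

lemma img (T : ℝ) (hT : 0 < T) :
    (fun a : 𝓞 F => T⁻¹ • co F a) '' Sz F T =
      Kb F ∩ T⁻¹ • (Submodule.span ℤ (Set.range (Pi.basisFun ℝ (Ix F))) : Set (Ix F → ℝ)) := by
  have hTi : T⁻¹ ≠ 0 := inv_ne_zero hT.ne'
  ext y
  constructor
  · rintro ⟨a, ha, rfl⟩
    rw [mem_Sz F hT.le] at ha
    refine ⟨?_, ?_⟩
    · show ‖Ph F (T⁻¹ • co F a)‖ ≤ 1
      rw [map_smul, norm_smul, Real.norm_of_nonneg (by positivity)]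
      rw [inv_mul_le_iff₀ hT, mul_one]
      exact ha
    · apply Set.smul_mem_smul_set
      rw [SetLike.mem_coe, Basis.mem_span_iff_repr_mem]
      intro i
      rw [Pi.basisFun_repr]
      exact ⟨(RingOfIntegers.basis F).repr a i, by simp [co]⟩
  · rintro ⟨h1, h2⟩
    rw [Set.mem_smul_set] at h2
    obtain ⟨z, hz, rfl⟩ := h2
    rw [SetLike.mem_coe, Basis.mem_span_iff_repr_mem] at hz
    choose c hc using hz
    obtain ⟨a, ha⟩ : ∃ a : 𝓞 F, a = (RingOfIntegers.basis F).equivFun.symm c := ⟨_, rfl⟩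
    have hco : co F a = z := by
      funext i
      have h3 := hc i
      rw [Pi.basisFun_repr] at h3
      rw [← h3]
      unfold co
      have h4 : (RingOfIntegers.basis F).repr a i = c i := by
        rw [ha, ← Basis.equivFun_apply, LinearEquiv.apply_symm_apply]
      rw [h4]
      simp
    refine ⟨a, ?_, by
      show T⁻¹ • co F a = _
      rw [hco]⟩
    rw [mem_Sz F hT.le, hco]
    have h5 : ‖Ph F (T⁻¹ • z)‖ ≤ 1 := h1
    rw [map_smul, norm_smul, Real.norm_of_nonneg (by positivity), inv_mul_le_iff₀ hT, mul_one] at h5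
    exact h5

/-- the main count -/
lemma main_tendsto : Tendsto (fun T : ℝ => ((Sz F T).ncard : ℝ) / T ^ Fintype.card (Ix F)) atTop
    (𝓝 (MeasureTheory.volume.real (Kb F))) := by
  refine Tendsto.congr' ?_ (tendsto_card_div_pow_atTop_volume' (Kb F) (Kb_bdd F) (Kb_meas F)
    ((Kb_cvx F).addHaar_frontier MeasureTheory.volume) (Kb_mono F))
  filter_upwards [eventually_gt_atTop (0 : ℝ)] with T hT
  congr 1
  rw [Nat.card_coe_set_eq, ← img F T hT, Set.ncard_image_of_injective]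
  intro a b h
  apply co_inj F
  exact smul_right_injective _ (inv_ne_zero hT.ne') h

lemma Sz_fin (T : ℝ) : (Sz F T).Finite := by
  have h := NumberField.Embeddings.finite_of_norm_le F ℂ T
  refine Set.Finite.of_finite_image (f := fun a : 𝓞 F => (a : F)) (h.subset ?_) ?_
  · rintro _ ⟨a, ha, rfl⟩
    exact ⟨a.isIntegral_coe, fun σ => ha σ⟩
  · intro a _ b _ hab
    exact RingOfIntegers.ext hab

/-- the class of `A` modulo `m` -/
def Sc (m : ℕ) (A : 𝓞 F) (T : ℝ) : Set (𝓞 F) := {a | (m : 𝓞 F) ∣ a - A} ∩ Sz F T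

lemma Sc_fin (m : ℕ) (A : 𝓞 F) (T : ℝ) : (Sc F m A T).Finite :=
  (Sz_fin F T).subset Set.inter_subset_right

/-- a bound for an integer -/
lemma bd (A : 𝓞 F) : ∃ C : ℝ, 0 ≤ C ∧ ∀ σ : F →+* ℂ, ‖σ (A : F)‖ ≤ C :=
  ⟨∑ σ : F →+* ℂ, ‖σ (A : F)‖, by positivity, fun σ =>
    Finset.single_le_sum (f := fun σ : F →+* ℂ => ‖σ (A : F)‖) (fun _ _ => norm_nonneg _)
      (Finset.mem_univ σ)⟩

lemma Sc_up (m : ℕ) (hm : 0 < m) (A : 𝓞 F) (C T : ℝ) (hC : ∀ σ : F →+* ℂ, ‖σ (A : F)‖ ≤ C) :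
    (Sc F m A T).ncard ≤ (Sz F ((T + C) / m)).ncard := by
  have hm' : (m : 𝓞 F) ≠ 0 := by exact_mod_cast hm.ne'
  have hmr : (0 : ℝ) < m := by exact_mod_cast hm
  have h1 : Sc F m A T ⊆ (fun c : 𝓞 F => A + m * c) '' Sz F ((T + C) / m) := by
    rintro a ⟨ha1, ha2⟩
    obtain ⟨c, hc⟩ := ha1
    refine ⟨c, ?_, ?_⟩
    · intro σ
      have e : σ (a : F) - σ (A : F) = m * σ (c : F) := by
        rw [← map_sub]
        have : (a : F) - (A : F) = (m : F) * (c : F) := by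
          have := congrArg (algebraMap (𝓞 F) F) hc
          rw [map_sub, map_mul, map_natCast] at this
          exact this
        rw [this, map_mul, map_natCast]
      have h2 : (m : ℝ) * ‖σ (c : F)‖ ≤ T + C := by
        calc (m : ℝ) * ‖σ (c : F)‖ = ‖(m : ℂ) * σ (c : F)‖ := by
              rw [norm_mul, Complex.norm_natCast]
          _ = ‖σ (a : F) - σ (A : F)‖ := by rw [e]
          _ ≤ ‖σ (a : F)‖ + ‖σ (A : F)‖ := norm_sub_le _ _
          _ ≤ T + C := add_le_add (ha2 σ) (hC σ)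
      rw [le_div_iff₀ hmr]
      linarith
    · show A + m * c = a
      rw [← hc]
      ring
  calc (Sc F m A T).ncard ≤ ((fun c : 𝓞 F => A + m * c) '' Sz F ((T + C) / m)).ncard :=
        Set.ncard_le_ncard h1 ((Sz_fin F _).image _)
    _ ≤ (Sz F ((T + C) / m)).ncard := Set.ncard_image_le (Sz_fin F _)

lemma Sc_low (m : ℕ) (hm : 0 < m) (A : 𝓞 F) (C T : ℝ) (hC : ∀ σ : F →+* ℂ, ‖σ (A : F)‖ ≤ C) :
    (Sz F ((T - C) / m)).ncard ≤ (Sc F m A T).ncard := by
  have hm' : (m : 𝓞 F) ≠ 0 := by exact_mod_cast hm.ne'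
  have hmr : (0 : ℝ) < m := by exact_mod_cast hm
  refine Set.ncard_le_ncard_of_injOn (fun c : 𝓞 F => A + m * c) ?_ ?_ (Sc_fin F m A T)
  · intro c hc
    refine ⟨⟨c, by show A + m * c - A = m * c; ring⟩, ?_⟩
    intro σ
    have e : (((A + m * c : 𝓞 F)) : F) = (A : F) + (m : F) * (c : F) := by
      show algebraMap (𝓞 F) F (A + m * c) = _
      rw [map_add, map_mul, map_natCast]
    have h2 := hc σ
    rw [le_div_iff₀ hmr] at h2
    show ‖σ (((A + m * c : 𝓞 F)) : F)‖ ≤ T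
    rw [e, map_add, map_mul, map_natCast]
    calc ‖σ (A : F) + (m : ℂ) * σ (c : F)‖ ≤ ‖σ (A : F)‖ + ‖(m : ℂ) * σ (c : F)‖ := norm_add_le _ _
      _ = ‖σ (A : F)‖ + m * ‖σ (c : F)‖ := by rw [norm_mul, Complex.norm_natCast]
      _ ≤ C + (T - C) := by
          apply add_le_add (hC σ)
          linarith
      _ = T := by ring
  · intro a _ b _ hab
    have : A + m * a = A + m * b := hab
    exact mul_left_cancel₀ hm' (add_left_cancel this)

/-- `g(T) ~ T / m` -/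
lemma lin_tendsto (m : ℕ) (hm : 0 < m) (C : ℝ) (n : ℕ) (V : ℝ) (f : ℝ → ℝ)
    (hf : Tendsto (fun T : ℝ => f T / T ^ n) atTop (𝓝 V)) :
    Tendsto (fun T : ℝ => f ((T + C) / m) / T ^ n) atTop (𝓝 (V * (1 / (m : ℝ)) ^ n)) := by
  have hmr : (0 : ℝ) < m := by exact_mod_cast hm
  have h1 : Tendsto (fun T : ℝ => (T + C) / m) atTop atTop :=
    (tendsto_atTop_add_const_right _ _ tendsto_id).atTop_div_const hmr
  have h2 := hf.comp h1
  have h3 : Tendsto (fun T : ℝ => (1 + C / T) / m) atTop (𝓝 ((1 + 0) / m)) := by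
    apply Tendsto.div_const
    exact tendsto_const_nhds.add (tendsto_const_nhds.div_atTop tendsto_id)
  rw [add_zero] at h3
  have h4 := h2.mul (h3.pow n)
  refine h4.congr' ?_
  filter_upwards [eventually_gt_atTop (0 : ℝ), eventually_gt_atTop (-C)] with T hT hT2
  have hTC : 0 < T + C := by linarith
  show f ((T + C) / m) / ((T + C) / m) ^ n * ((1 + C / T) / m) ^ n = _
  have e : (1 + C / T) / m = ((T + C) / m) / T := by
    field_simp
  rw [e, div_pow ((T + C) / m) T n]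
  have hp : ((T + C) / m) ^ n ≠ 0 := by positivity
  field_simp

lemma Sc_tendsto (m : ℕ) (hm : 0 < m) (A : 𝓞 F) :
    Tendsto (fun T : ℝ => ((Sc F m A T).ncard : ℝ) / T ^ Fintype.card (Ix F)) atTop
      (𝓝 (MeasureTheory.volume.real (Kb F) * (1 / (m : ℝ)) ^ Fintype.card (Ix F))) := by
  obtain ⟨C, hC0, hC⟩ := bd F A
  have h1 := lin_tendsto m hm C _ _ (fun T => ((Sz F T).ncard : ℝ)) (main_tendsto F)
  have h2 := lin_tendsto m hm (-C) _ _ (fun T => ((Sz F T).ncard : ℝ)) (main_tendsto F)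
  refine tendsto_of_tendsto_of_tendsto_of_le_of_le' h2 h1 ?_ ?_
  · filter_upwards [eventually_gt_atTop (0 : ℝ)] with T hT
    apply div_le_div_of_nonneg_right _ (by positivity)
    rw [← sub_eq_add_neg]
    exact_mod_cast Sc_low F m hm A C T hC
  · filter_upwards [eventually_gt_atTop (0 : ℝ)] with T hT
    apply div_le_div_of_nonneg_right _ (by positivity)
    exact_mod_cast Sc_up F m hm A C T hC

/-- the size bounds -/
noncomputable def al (X : ℝ) : ℝ := (X / 4) ^ (1 / 3 : ℝ)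
noncomputable def be (X : ℝ) : ℝ := (X / 27) ^ (1 / 2 : ℝ)

lemma al_nn (X : ℝ) (hX : 0 ≤ X) : 0 ≤ al X := by unfold al; positivity
lemma be_nn (X : ℝ) (hX : 0 ≤ X) : 0 ≤ be X := by unfold be; positivity

lemma al_pow (X : ℝ) (hX : 0 ≤ X) : al X ^ 3 = X / 4 := by
  unfold al
  rw [← Real.rpow_natCast, ← Real.rpow_mul (by positivity)]
  norm_num

lemma be_pow (X : ℝ) (hX : 0 ≤ X) : be X ^ 2 = X / 27 := by
  unfold be
  rw [← Real.rpow_natCast, ← Real.rpow_mul (by positivity)]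
  norm_num

lemma al_le (X y : ℝ) (hX : 0 ≤ X) (hy : 0 ≤ y) : 4 * y ^ 3 ≤ X ↔ y ≤ al X := by
  rw [← pow_le_pow_iff_left₀ hy (al_nn X hX) (n := 3) (by norm_num), al_pow X hX, le_div_iff₀ (by norm_num)]
  rw [mul_comm]

lemma be_le (X y : ℝ) (hX : 0 ≤ X) (hy : 0 ≤ y) : 27 * y ^ 2 ≤ X ↔ y ≤ be X := by
  rw [← pow_le_pow_iff_left₀ hy (be_nn X hX) (n := 2) (by norm_num), be_pow X hX, le_div_iff₀ (by norm_num)]
  rw [mul_comm]

lemma al_mul (μ X : ℝ) (hμ : 0 ≤ μ) (hX : 0 ≤ X) : al (μ ^ 6 * X) = μ ^ 2 * al X := by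
  have h1 : 0 ≤ μ ^ 2 * al X := mul_nonneg (by positivity) (al_nn X hX)
  have h2 : 0 ≤ al (μ ^ 6 * X) := al_nn _ (by positivity)
  rw [← pow_left_inj₀ h2 h1 (n := 3) (by norm_num), al_pow _ (by positivity), mul_pow, al_pow X hX]
  ring

lemma be_mul (μ X : ℝ) (hμ : 0 ≤ μ) (hX : 0 ≤ X) : be (μ ^ 6 * X) = μ ^ 3 * be X := by
  have h1 : 0 ≤ μ ^ 3 * be X := mul_nonneg (by positivity) (be_nn X hX)
  have h2 : 0 ≤ be (μ ^ 6 * X) := be_nn _ (by positivity)
  rw [← pow_left_inj₀ h2 h1 (n := 2) (by norm_num), be_pow _ (by positivity), mul_pow, be_pow X hX]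
  ring

lemma al_top : Tendsto al atTop atTop := by
  unfold al
  exact (tendsto_rpow_atTop (by norm_num : (0 : ℝ) < 1 / 3)).comp
    (tendsto_id.atTop_div_const (by norm_num))

lemma be_top : Tendsto be atTop atTop := by
  unfold be
  exact (tendsto_rpow_atTop (by norm_num : (0 : ℝ) < 1 / 2)).comp
    (tendsto_id.atTop_div_const (by norm_num))

lemma set_eq (m : ℕ) (A B : 𝓞 F) (X : ℝ) (hX : 0 ≤ X) :
    (Cl m A B ∩ Hg X : Set (𝓞 F × 𝓞 F)) = Sc F m A (al X) ×ˢ Sc F m B (be X) := by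
  ext ⟨a, b⟩
  constructor
  · rintro ⟨⟨h1, h2⟩, h3⟩
    exact ⟨⟨h1, fun σ => (al_le X _ hX (norm_nonneg _)).1 (h3 σ).1⟩,
      ⟨h2, fun σ => (be_le X _ hX (norm_nonneg _)).1 (h3 σ).2⟩⟩
  · rintro ⟨⟨h1, h2⟩, ⟨h3, h4⟩⟩
    exact ⟨⟨h1, h3⟩, fun σ => ⟨(al_le X _ hX (norm_nonneg _)).2 (h2 σ),
      (be_le X _ hX (norm_nonneg _)).2 (h4 σ)⟩⟩

/-- the product count -/
noncomputable def Nn (m : ℕ) (A B : 𝓞 F) (X : ℝ) : ℝ := ((Cl m A B ∩ Hg X : Set (𝓞 F × 𝓞 F)).ncard : ℝ)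

lemma Nn_tendsto (m : ℕ) (hm : 0 < m) (A B : 𝓞 F) : ∃ V : ℝ, 0 < V ∧
    Tendsto (fun X : ℝ => Nn F m A B X / (al X ^ Fintype.card (Ix F) * be X ^ Fintype.card (Ix F)))
      atTop (𝓝 V) := by
  have hmr : (0 : ℝ) < m := by exact_mod_cast hm
  have hK := Kb_pos F
  refine ⟨_, ?_, (((Sc_tendsto F m hm A).comp al_top).mul ((Sc_tendsto F m hm B).comp be_top)).congr' ?_⟩
  · positivity
  · filter_upwards [eventually_gt_atTop (0 : ℝ)] with X hX
    unfold Nn
    rw [set_eq F m A B X hX.le, Set.ncard_prod, Nat.cast_mul]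
    show ((Sc F m A (al X)).ncard : ℝ) / al X ^ Fintype.card (Ix F) *
      (((Sc F m B (be X)).ncard : ℝ) / be X ^ Fintype.card (Ix F)) = _
    rw [div_mul_div_comm]

/-- **SHL** -/
theorem shl : S_SHL := by
  intro F _ _ ρ hρ
  obtain ⟨n, hn⟩ : ∃ n : ℕ, n = Fintype.card (Ix F) := ⟨_, rfl⟩
  obtain ⟨μ, hμ1, hμ2⟩ : ∃ μ : ℝ, 1 < μ ∧ (μ ^ 2) ^ n * (μ ^ 3) ^ n < 1 + ρ := by
    have h1 : Tendsto (fun μ : ℝ => (μ ^ 2) ^ n * (μ ^ 3) ^ n) (𝓝[>] 1) (𝓝 ((1 ^ 2) ^ n * (1 ^ 3) ^ n)) := by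
      apply Tendsto.mono_left _ nhdsWithin_le_nhds
      apply Continuous.tendsto
      fun_prop
    simp only [one_pow, mul_one] at h1
    have h2 := h1.eventually_lt_const (show (1 : ℝ) < 1 + ρ by linarith)
    obtain ⟨μ, h3, h4⟩ := (h2.and self_mem_nhdsWithin).exists
    exact ⟨μ, h4, h3⟩
  have hμ0 : 0 < μ := by linarith
  refine ⟨μ ^ 6, one_lt_pow₀ hμ1 (by norm_num), fun m A B hm => ?_⟩
  obtain ⟨V, hV, hT⟩ := Nn_tendsto F m hm A B
  rw [← hn] at hT
  have hpos : ∀ᶠ Y : ℝ in atTop, 0 < Nn F m A B Y := by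
    have h1 := hT.eventually_const_lt hV
    filter_upwards [h1, eventually_gt_atTop (0 : ℝ)] with Y h2 hY
    by_contra hcon
    push Not at hcon
    have h3 : Nn F m A B Y / (al Y ^ n * be Y ^ n) ≤ 0 :=
      div_nonpos_of_nonpos_of_nonneg hcon
        (mul_nonneg (pow_nonneg (al_nn Y hY.le) _) (pow_nonneg (be_nn Y hY.le) _))
    linarith
  refine ⟨?_, ?_, ?_⟩
  · intro Y
    have h0 : (Cl m A B ∩ Hg (max Y 0) : Set (𝓞 F × 𝓞 F)).Finite := by
      rw [set_eq F m A B _ (le_max_right _ _)]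
      exact (Sc_fin F m A _).prod (Sc_fin F m B _)
    refine h0.subset ?_
    rintro p ⟨h1, h2⟩
    exact ⟨h1, fun σ => ⟨(h2 σ).1.trans (le_max_left _ _), (h2 σ).2.trans (le_max_left _ _)⟩⟩
  · filter_upwards [hpos] with Y hY
    unfold Nn at hY
    exact_mod_cast hY
  · have h6 : Tendsto (fun Y : ℝ => μ ^ 6 * Y) atTop atTop :=
      tendsto_id.const_mul_atTop (by positivity)
    have h1 := (hT.comp h6).div hT hV.ne'
    rw [div_self hV.ne'] at h1
    have h2 := h1.mul_const ((μ ^ 2) ^ n * (μ ^ 3) ^ n)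
    rw [one_mul] at h2
    have h3 := h2.eventually_lt_const hμ2
    filter_upwards [h3, hpos, eventually_gt_atTop (0 : ℝ)] with Y g1 g2 g3
    show Nn F m A B (μ ^ 6 * Y) ≤ (1 + ρ) * Nn F m A B Y
    have e : Nn F m A B (μ ^ 6 * Y) / (al (μ ^ 6 * Y) ^ n * be (μ ^ 6 * Y) ^ n) /
        (Nn F m A B Y / (al Y ^ n * be Y ^ n)) * ((μ ^ 2) ^ n * (μ ^ 3) ^ n) =
        Nn F m A B (μ ^ 6 * Y) / Nn F m A B Y := by
      rw [al_mul μ Y hμ0.le g3.le, be_mul μ Y hμ0.le g3.le]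
      have ha : 0 < al Y := by unfold al; positivity
      have hb : 0 < be Y := by unfold be; positivity
      rw [mul_pow, mul_pow]
      field_simp
    have g4 : Nn F m A B (μ ^ 6 * Y) / Nn F m A B Y < 1 + ρ := by
      rw [← e]
      exact g1
    rw [div_lt_iff₀ g2] at g4
    exact g4.le

end Pool.Agent.Run7.h688.MO
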