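import Pool.Agent.Run7.h245.MO.Iface

/-!
# Project MO (helper245), piece ASM (helper688)
-/

set_option autoImplicit false

open Filter Topology
open scoped Classical

namespace Pool.Agent.Run7.h688.MO

open Pool.Agent.Run7.h245.MO

/-- **ASM** -/
theorem asm : S_ASM := by
  intro α ι H C Bd Mn J D tw R g M δ₁ ρ lam hJ hδ0 hδ1 hρ hM hH hfin hD hlam htw hinj hbad hgr hmin hg
  obtain ⟨N, hN⟩ : ∃ N : ℝ → ℝ, N = fun Y => ((C ∩ H Y).ncard : ℝ) := ⟨_, rfl⟩
  have hNm : ∀ X Y : ℝ, X ≤ Y → N X ≤ N Y := by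
    intro X Y h
    rw [hN]
    have h1 : (C ∩ H X).ncard ≤ (C ∩ H Y).ncard :=
      Set.ncard_le_ncard (Set.inter_subset_inter_right _ (hH X Y h)) (hfin Y)
    show ((C ∩ H X).ncard : ℝ) ≤ ((C ∩ H Y).ncard : ℝ)
    exact_mod_cast h1
  have hN0 : ∀ X : ℝ, 0 ≤ N X := by intro X; rw [hN]; positivity
  obtain ⟨i, hiJ, hi⟩ := J.exists_min_image D hJ
  -- eventually, all bounds at `X / D j`
  have hev : ∀ᶠ X : ℝ in atTop, ∀ j ∈ J,
      ((C ∩ H (X / D j) ∩ Bd).ncard : ℝ) ≤ δ₁ * N (X / D j) ∧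
      N (lam * (X / D j)) ≤ (1 + ρ) * N (X / D j) := by
    rw [Filter.eventually_all_finset]
    intro j hj
    have h1 : Tendsto (fun X : ℝ => X / D j) atTop atTop := tendsto_id.atTop_div_const (hD j hj)
    rw [hN]
    exact h1.eventually (hbad.and hgr)
  filter_upwards [hev, eventually_ge_atTop (0 : ℝ)] with X hX hX0
  -- the finite sets
  obtain ⟨E, hE⟩ : ∃ E : ι → Finset α, E = fun j => (hfin (X / D j)).toFinset := ⟨_, rfl⟩
  have hEm : ∀ j a, a ∈ E j ↔ a ∈ C ∧ a ∈ H (X / D j) := by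
    intro j a
    rw [hE]
    simp
  have hEc : ∀ j, ((E j).card : ℝ) = N (X / D j) := by
    intro j
    rw [hE, hN]
    show (((hfin (X / D j)).toFinset.card : ℕ) : ℝ) = ((C ∩ H (X / D j)).ncard : ℝ)
    rw [Set.ncard_eq_toFinset_card _ (hfin (X / D j))]
  obtain ⟨G, hG⟩ : ∃ G : ι → Finset α, G = fun j => (E j).filter (fun a => a ∉ Bd) := ⟨_, rfl⟩
  have hGm : ∀ j a, a ∈ G j ↔ (a ∈ C ∧ a ∈ H (X / D j)) ∧ a ∉ Bd := by
    intro j a
    rw [hG, Finset.mem_filter, hEm]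
  have hGc : ∀ j ∈ J, (1 - δ₁) * N (X / D j) ≤ ((G j).card : ℝ) := by
    intro j hj
    have h1 : (E j).card = ((E j).filter (fun a => a ∈ Bd)).card + (G j).card := by
      rw [hG]
      exact (Finset.card_filter_add_card_filter_not (s := E j) (fun a => a ∈ Bd)).symm
    have h2 : (((E j).filter (fun a => a ∈ Bd)).card : ℝ) ≤ δ₁ * N (X / D j) := by
      refine le_trans (le_of_eq ?_) (hX j hj).1
      have h3 : (C ∩ H (X / D j) ∩ Bd) = ↑((E j).filter (fun a => a ∈ Bd)) := by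
        ext a
        rw [Finset.coe_filter, Set.mem_ofPred_eq, hEm]
        rfl
      rw [h3, Set.ncard_coe_finset]
    have h4 : ((E j).card : ℝ) = (((E j).filter (fun a => a ∈ Bd)).card : ℝ) + ((G j).card : ℝ) := by
      exact_mod_cast h1
    rw [hEc j] at h4
    linarith
  obtain ⟨f, hf⟩ : ∃ f : (Σ _ : ι, α) → α, f = fun p => tw p.1 p.2 := ⟨_, rfl⟩
  have hfi : ∀ p ∈ J.sigma G, ∀ q ∈ J.sigma G, f p = f q → p = q := by
    rintro ⟨j, a⟩ hp ⟨k, b⟩ hq h
    rw [Finset.mem_sigma] at hp hq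
    have h1 := (hGm j a).1 hp.2
    have h2 := (hGm k b).1 hq.2
    rw [hf] at h
    obtain ⟨rfl, rfl⟩ := hinj j hp.1 k hq.1 a h1.1.1 b h2.1.1 h
    rfl
  obtain ⟨U, hU⟩ : ∃ U : Set α, U = {p | p ∈ Mn ∧ p ∈ H X ∧ ∃ j ∈ J, ∃ a ∈ C, tw j a = p} := ⟨_, rfl⟩
  have hUsub : U ⊆ ↑((J.sigma E).image f) := by
    rw [hU]
    rintro p ⟨_, hp, j, hj, a, ha, rfl⟩
    rw [Finset.mem_coe, Finset.mem_image]
    refine ⟨⟨j, a⟩, ?_, by rw [hf]⟩
    rw [Finset.mem_sigma, hEm]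
    exact ⟨hj, ha, (htw j hj a ha X).1 hp⟩
  have hUfin : U.Finite := (Finset.finite_toSet _).subset hUsub
  have hUc : (U.ncard : ℝ) ≤ ∑ j ∈ J, N (X / D j) := by
    have h1 : U.ncard ≤ ∑ j ∈ J, (E j).card := by
      calc U.ncard ≤ (↑((J.sigma E).image f) : Set α).ncard :=
            Set.ncard_le_ncard hUsub (Finset.finite_toSet _)
        _ = ((J.sigma E).image f).card := Set.ncard_coe_finset _
        _ ≤ (J.sigma E).card := Finset.card_image_le
        _ = ∑ j ∈ J, (E j).card := Finset.card_sigma _ _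
    calc (U.ncard : ℝ) ≤ ((∑ j ∈ J, (E j).card : ℕ) : ℝ) := by exact_mod_cast h1
      _ = ∑ j ∈ J, N (X / D j) := by
          push_cast
          exact Finset.sum_congr rfl fun j _ => hEc j
  have hGs : {p | p ∈ H X ∧ ∃ j ∈ J, ∃ a ∈ C, a ∉ Bd ∧ tw j a = p} = ↑((J.sigma G).image f) := by
    ext p
    rw [Finset.mem_coe, Finset.mem_image]
    constructor
    · rintro ⟨hp, j, hj, a, ha, hb, rfl⟩
      refine ⟨⟨j, a⟩, ?_, by rw [hf]⟩
      rw [Finset.mem_sigma, hGm]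
      exact ⟨hj, ⟨ha, (htw j hj a ha X).1 hp⟩, hb⟩
    · rintro ⟨⟨j, a⟩, h, rfl⟩
      rw [Finset.mem_sigma, hGm] at h
      obtain ⟨hj, ⟨ha, ha2⟩, hb⟩ := h
      rw [hf]
      exact ⟨(htw j hj a ha X).2 ha2, j, hj, a, ha, hb, rfl⟩
  have hGU : (↑((J.sigma G).image f) : Set α) ⊆ U := by
    rw [← hGs, hU]
    rintro p ⟨hp, j, hj, a, ha, hb, rfl⟩
    exact ⟨hmin j hj a ha hb, hp, j, hj, a, ha, rfl⟩
  have hGcard : (((J.sigma G).image f).card : ℝ) = ∑ j ∈ J, ((G j).card : ℝ) := by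
    rw [Finset.card_image_of_injOn (by
      intro p hp q hq h
      exact hfi p hp q hq h), Finset.card_sigma]
    push_cast
    rfl
  have hlow : (1 - δ₁) * ∑ j ∈ J, N (X / D j) ≤ (((J.sigma G).image f).card : ℝ) := by
    rw [hGcard, Finset.mul_sum]
    exact Finset.sum_le_sum hGc
  have h1δ : 0 ≤ 1 - δ₁ := by linarith
  rw [← hU, hGs]
  refine ⟨hUfin, ?_, ?_⟩
  · rw [Set.ncard_coe_finset]
    exact (mul_le_mul_of_nonneg_left hUc h1δ).trans hlow
  · intro r hr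
    have hfs : (∑ᶠ (p : α) (_ : p ∈ H X ∧ ∃ j ∈ J, ∃ a ∈ C, a ∉ Bd ∧ tw j a = p), g r p) =
        ∑ p ∈ (J.sigma G).image f, g r p := by
      rw [← finsum_mem_coe_finset, ← hGs]
      rfl
    rw [hfs, Finset.sum_image (by
      intro p hp q hq h
      exact hfi p hp q hq h), Finset.sum_sigma]
    have hsub : ∀ j ∈ J, G j ⊆ G i := by
      intro j hj a ha
      rw [hGm] at ha ⊢
      refine ⟨⟨ha.1.1, ?_⟩, ha.2⟩
      apply hH (X / D j) (X / D i) _ ha.1.2
      exact div_le_div_of_nonneg_left hX0 (hD i hiJ) (hi j hj)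
    have s1 : ∑ j ∈ J, ∑ a ∈ G j, g r (f ⟨j, a⟩) ≤ ∑ j ∈ J, ∑ a ∈ G i, g r (tw j a) := by
      apply Finset.sum_le_sum
      intro j hj
      rw [hf]
      apply Finset.sum_le_sum_of_subset_of_nonneg (hsub j hj)
      intro a ha _
      rw [hGm] at ha
      exact (hg r hr a ha.1.1 ha.2).1 j hj
    have s2 : ∑ j ∈ J, ∑ a ∈ G i, g r (tw j a) ≤ N (X / D i) * (M r * J.card) := by
      rw [Finset.sum_comm]
      calc ∑ a ∈ G i, ∑ j ∈ J, g r (tw j a) ≤ ∑ a ∈ G i, M r * J.card := by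
            apply Finset.sum_le_sum
            intro a ha
            rw [hGm] at ha
            exact (hg r hr a ha.1.1 ha.2).2
        _ = ((G i).card : ℝ) * (M r * J.card) := by rw [Finset.sum_const, nsmul_eq_mul]
        _ ≤ N (X / D i) * (M r * J.card) := by
            apply mul_le_mul_of_nonneg_right _ (mul_nonneg (hM r hr) (Nat.cast_nonneg _))
            rw [← hEc i]
            have : (G i).card ≤ (E i).card := by rw [hG]; exact Finset.card_filter_le _ _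
            exact_mod_cast this
    have s3 : N (X / D i) * J.card ≤ (1 + ρ) * ∑ j ∈ J, N (X / D j) := by
      rw [Finset.mul_sum, mul_comm, ← nsmul_eq_mul, ← Finset.sum_const]
      apply Finset.sum_le_sum
      intro j hj
      refine (hNm _ (lam * (X / D j)) ?_).trans (hX j hj).2
      have hDi := hD i hiJ
      have hDj := hD j hj
      rw [mul_div_assoc', div_le_div_iff₀ hDi hDj]
      have := mul_le_mul_of_nonneg_left (hlam j hj i hiJ) hX0
      linarith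
    have s4 : (((J.sigma G).image f).card : ℝ) ≤ U.ncard := by
      rw [← Set.ncard_coe_finset]
      exact_mod_cast Set.ncard_le_ncard hGU hUfin
    have hMr := hM r hr
    calc (1 - δ₁) * ∑ j ∈ J, ∑ a ∈ G j, g r (f ⟨j, a⟩)
        ≤ (1 - δ₁) * (N (X / D i) * (M r * J.card)) :=
          mul_le_mul_of_nonneg_left (s1.trans s2) h1δ
      _ = (1 - δ₁) * M r * (N (X / D i) * J.card) := by ring
      _ ≤ (1 - δ₁) * M r * ((1 + ρ) * ∑ j ∈ J, N (X / D j)) :=
          mul_le_mul_of_nonneg_left s3 (mul_nonneg h1δ hMr)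
      _ = (1 + ρ) * M r * ((1 - δ₁) * ∑ j ∈ J, N (X / D j)) := by ring
      _ ≤ (1 + ρ) * M r * U.ncard :=
          mul_le_mul_of_nonneg_left (hlow.trans s4) (mul_nonneg (by linarith) hMr)

end Pool.Agent.Run7.h688.MO
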